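import Mathlib

set_option autoImplicit false

/-!
# A real `2 × 2` matrix whose best approximation vectors span a plane

`Θ = (1/5) v vᵀ` with `v = (1, √2 - 1)`.
-/

namespace Pool.Agent.Results.MP_a0fa86_nt.SpanTwo

open Matrix

/-- the real vector with the given integer coordinates -/
def toR (x : Fin 2 → ℤ) : Fin 2 → ℝ := fun i => (x i : ℝ)

/-- Condition (G): `Θ x` is not an integer vector for any nonzero integer vector `x`. -/
def CondG (Θ : Matrix (Fin 2) (Fin 2) ℝ) : Prop :=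
  ∀ x : Fin 2 → ℤ, x ≠ 0 → ∀ y : Fin 2 → ℤ, Θ *ᵥ toR x ≠ toR y

/-- `(x, y)` is a best approximation vector for `Θ` (all norms are sup-norms): `x ≠ 0`, and the only
integer points `(x', y')` with `|x'| ≤ |x|` and `|Θ x' - y'| ≤ |Θ x - y|` are `0` and `± (x, y)`. -/
def IsBest (Θ : Matrix (Fin 2) (Fin 2) ℝ) (x y : Fin 2 → ℤ) : Prop :=
  x ≠ 0 ∧ ∀ x' y' : Fin 2 → ℤ, ‖toR x'‖ ≤ ‖toR x‖ →
    ‖Θ *ᵥ toR x' - toR y'‖ ≤ ‖Θ *ᵥ toR x - toR y‖ →
      (x' = 0 ∧ y' = 0) ∨ (x' = x ∧ y' = y) ∨ (x' = -x ∧ y' = -y)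

/-- `z_ν = (X ν, Y ν)`, `ν = 0, 1, 2, …`, is the sequence of all best approximation vectors, one
from each pair `± z`, ordered so that `M_ν = |X ν|` increases. -/
def IsBestSeq (Θ : Matrix (Fin 2) (Fin 2) ℝ) (X Y : ℕ → Fin 2 → ℤ) : Prop :=
  (∀ ν, IsBest Θ (X ν) (Y ν)) ∧ StrictMono (fun ν => ‖toR (X ν)‖) ∧
    ∀ x y, IsBest Θ x y → ∃ ν, (x = X ν ∧ y = Y ν) ∨ (x = -X ν ∧ y = -Y ν)

/-- `d(ν₀)`: the dimension of the real span of the vectors `z_ν`, `ν ≥ ν₀`. -/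
noncomputable def d (X Y : ℕ → Fin 2 → ℤ) (ν₀ : ℕ) : ℕ :=
  Module.finrank ℝ (Submodule.span ℝ
    {z : (Fin 2 → ℝ) × (Fin 2 → ℝ) | ∃ ν, ν₀ ≤ ν ∧ z = (toR (X ν), toR (Y ν))})

/-! ### The number `θ = √2 - 1` -/

noncomputable def θ : ℝ := √2 - 1

lemma θ_pos : 0 < θ := by
  unfold θ
  have : (1 : ℝ) < √2 := by
    rw [Real.lt_sqrt (by norm_num)]
    norm_num
  linarith

lemma θ_lt : θ < 1 / 2 := by
  unfold θ
  have : √2 < 3 / 2 := by
    rw [Real.sqrt_lt' (by norm_num)]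
    norm_num
  linarith

lemma bad (q p : ℤ) (hq : q ≠ 0) : 3 / 10 ≤ |(q : ℝ)| * |(q : ℝ) * θ - p| := by
  have hirr : Irrational ((q : ℝ) * √2) := irrational_sqrt_two.intCast_mul hq
  set P : ℤ := q + p with hP
  have e : (q : ℝ) * θ - p = q * √2 - P := by
    rw [hP]
    unfold θ
    push_cast
    ring
  rw [e]
  have h1 : (q : ℝ) * √2 - P ≠ 0 := by
    intro h
    exact hirr ⟨P, by push_cast; linarith⟩
  have h2 : (q : ℝ) * √2 + P ≠ 0 := by
    intro h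
    exact hirr ⟨-P, by push_cast; linarith⟩
  have h3 : ((q : ℝ) * √2 - P) * ((q : ℝ) * √2 + P) = ((2 * q ^ 2 - P ^ 2 : ℤ) : ℝ) := by
    push_cast
    have := Real.mul_self_sqrt (show (0 : ℝ) ≤ 2 by norm_num)
    nlinarith
  have h4 : (2 * q ^ 2 - P ^ 2 : ℤ) ≠ 0 := by
    intro h
    rw [h, Int.cast_zero] at h3
    exact (mul_ne_zero h1 h2) h3
  have h5 : (1 : ℝ) ≤ |((2 * q ^ 2 - P ^ 2 : ℤ) : ℝ)| := by
    have := Int.one_le_abs h4
    exact_mod_cast this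
  rw [← h3, abs_mul] at h5
  have hq1 : (1 : ℝ) ≤ |(q : ℝ)| := by exact_mod_cast Int.one_le_abs hq
  have hs2 : √2 < 3 / 2 := by
    rw [Real.sqrt_lt' (by norm_num)]
    norm_num
  have h6 : |(q : ℝ) * √2 + P| ≤ 3 * |(q : ℝ)| + |(q : ℝ) * √2 - P| := by
    have e2 : (q : ℝ) * √2 + P = 2 * √2 * q - (q * √2 - P) := by ring
    rw [e2]
    refine (abs_sub _ _).trans ?_
    rw [abs_mul, abs_of_pos (by positivity : 0 < 2 * √2)]
    nlinarith
  rcases le_or_gt (3 / 10) |(q : ℝ) * √2 - P| with h | h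
  · nlinarith [abs_nonneg (q : ℝ)]
  · have h7 : |(q : ℝ) * √2 + P| ≤ 33 / 10 * |(q : ℝ)| := by linarith
    nlinarith [abs_nonneg ((q : ℝ) * √2 - P), mul_le_mul_of_nonneg_left h7 (abs_nonneg ((q : ℝ) * √2 - P))]

/-! ### The matrix -/

/-- the linear form `x₀ + θ x₁` -/
noncomputable def ℓ (x : Fin 2 → ℤ) : ℝ := x 0 + θ * x 1

/-- the matrix `Θ = (1/5) v vᵀ`, `v = (1, θ)` -/
noncomputable def Θ : Matrix (Fin 2) (Fin 2) ℝ := !![1 / 5, 1 / 5 * θ; 1 / 5 * θ, 1 / 5 * θ ^ 2]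

lemma Θ_mul (x : Fin 2 → ℤ) : Θ *ᵥ toR x = ![1 / 5 * ℓ x, 1 / 5 * θ * ℓ x] := by
  ext i
  fin_cases i <;> simp [Θ, toR, ℓ, Matrix.mulVec, dotProduct, Fin.sum_univ_two] <;> ring

lemma toR_zero : toR 0 = 0 := by
  ext i
  simp [toR]

/-- the sup-norm of an integer vector as a natural number -/
def N (x : Fin 2 → ℤ) : ℕ := max (x 0).natAbs (x 1).natAbs

lemma norm_toR (x : Fin 2 → ℤ) : ‖toR x‖ = (N x : ℝ) := by
  apply le_antisymm
  · rw [pi_norm_le_iff_of_nonneg (by positivity)]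
    intro i
    rw [Real.norm_eq_abs, toR, ← Int.cast_abs, Int.abs_eq_natAbs]
    have : (x i).natAbs ≤ N x := by
      fin_cases i
      · exact le_max_left _ _
      · exact le_max_right _ _
    exact_mod_cast this
  · have h : ∀ i, (((x i).natAbs : ℕ) : ℝ) ≤ ‖toR x‖ := by
      intro i
      have h1 := norm_le_pi_norm (toR x) i
      rw [Real.norm_eq_abs, toR, ← Int.cast_abs, Int.abs_eq_natAbs, Int.cast_natCast] at h1
      exact h1
    unfold N
    rcases max_choice (x 0).natAbs (x 1).natAbs with h1 | h1 <;> rw [h1]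
    · exact h 0
    · exact h 1

lemma N_pos {x : Fin 2 → ℤ} (hx : x ≠ 0) : 1 ≤ N x := by
  by_contra h
  apply hx
  have h0 : N x = 0 := by omega
  unfold N at h0
  ext i
  fin_cases i
  · have : (x 0).natAbs = 0 := by omega
    simpa using this
  · have : (x 1).natAbs = 0 := by omega
    simpa using this

lemma abs_coord (x : Fin 2 → ℤ) (i : Fin 2) : |(x i : ℝ)| ≤ N x := by
  rw [← norm_toR]
  exact norm_le_pi_norm (toR x) i

lemma ℓ_abs (x : Fin 2 → ℤ) : |ℓ x| ≤ 3 / 2 * N x := by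
  unfold ℓ
  refine (abs_add_le _ _).trans ?_
  rw [abs_mul, abs_of_pos θ_pos]
  have h0 := abs_coord x 0
  have h1 := abs_coord x 1
  nlinarith [θ_pos, θ_lt, abs_nonneg (x 1 : ℝ)]

/-- `|ℓ(x)| ≥ 3 / (10 |x|)` -/
lemma ℓ_lower {x : Fin 2 → ℤ} (hx : x ≠ 0) : 3 / 10 ≤ N x * |ℓ x| := by
  by_cases h1 : x 1 = 0
  · have h0 : x 0 ≠ 0 := by
      intro h0
      apply hx
      ext i
      fin_cases i
      · exact h0
      · exact h1
    have e : ℓ x = x 0 := by simp [ℓ, h1]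
    have h2 : (1 : ℝ) ≤ |(x 0 : ℝ)| := by exact_mod_cast Int.one_le_abs h0
    have h3 := abs_coord x 0
    rw [e]
    nlinarith
  · have h2 := bad (x 1) (-(x 0)) h1
    have e : ((x 1 : ℤ) : ℝ) * θ - ((-(x 0) : ℤ) : ℝ) = ℓ x := by
      unfold ℓ
      push_cast
      ring
    rw [e] at h2
    have h3 := abs_coord x 1
    exact h2.trans (mul_le_mul_of_nonneg_right h3 (abs_nonneg _))

lemma ℓ_ne {x : Fin 2 → ℤ} (hx : x ≠ 0) : ℓ x ≠ 0 := by
  intro h
  have := ℓ_lower hx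
  rw [h] at this
  norm_num at this

lemma ℓ_inj {x x' : Fin 2 → ℤ} (h : |ℓ x'| = |ℓ x|) : x' = x ∨ x' = -x := by
  rcases abs_eq_abs.1 h with h | h
  · left
    by_contra hne
    have : x' - x ≠ 0 := sub_ne_zero.2 hne
    apply ℓ_ne this
    have e : ℓ (x' - x) = ℓ x' - ℓ x := by
      simp [ℓ]
      ring
    rw [e, h, sub_self]
  · right
    by_contra hne
    have : x' + x ≠ 0 := by
      intro h0
      exact hne (eq_neg_of_add_eq_zero_left h0)
    apply ℓ_ne this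
    have e : ℓ (x' + x) = ℓ x' + ℓ x := by
      simp [ℓ]
      ring
    rw [e, h]
    ring

lemma norm0 (x y : Fin 2 → ℤ) : |1 / 5 * ℓ x - y 0| ≤ ‖Θ *ᵥ toR x - toR y‖ := by
  have := norm_le_pi_norm (Θ *ᵥ toR x - toR y) 0
  rw [Θ_mul] at this ⊢
  simpa [toR] using this

lemma norm1 (x y : Fin 2 → ℤ) : |1 / 5 * θ * ℓ x - y 1| ≤ ‖Θ *ᵥ toR x - toR y‖ := by
  have := norm_le_pi_norm (Θ *ᵥ toR x - toR y) 1
  rw [Θ_mul] at this ⊢
  simpa [toR] using this

lemma norm_zero (x : Fin 2 → ℤ) : ‖Θ *ᵥ toR x - toR 0‖ = 1 / 5 * |ℓ x| := by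
  apply le_antisymm
  · rw [pi_norm_le_iff_of_nonneg (by positivity), Θ_mul]
    intro i
    fin_cases i
    · simp [toR]
    · have e : ‖(![1 / 5 * ℓ x, 1 / 5 * θ * ℓ x] - toR 0) 1‖ = 1 / 5 * (θ * |ℓ x|) := by
        simp [toR, abs_of_pos θ_pos]
        ring
      have : θ * |ℓ x| ≤ 1 * |ℓ x| :=
        mul_le_mul_of_nonneg_right (by linarith [θ_lt]) (abs_nonneg _)
      refine e.le.trans ?_
      linarith
  · have := norm0 x 0
    simpa [abs_mul] using this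

/-- **Key fact**: very good approximations have `y = 0`. -/
lemma y_zero {x y : Fin 2 → ℤ} (h1 : N x * ‖Θ *ᵥ toR x - toR y‖ < 1 / 5)
    (h2 : ‖Θ *ᵥ toR x - toR y‖ < 1 / 5) : y = 0 := by
  set ζ := ‖Θ *ᵥ toR x - toR y‖ with hζ
  have hζ0 : 0 ≤ ζ := norm_nonneg _
  have a0 := norm0 x y
  have a1 := norm1 x y
  rw [← hζ] at a0 a1
  have hθ0 := θ_pos
  have hθ1 := θ_lt
  have hb : |(y 0 : ℝ) * θ - y 1| ≤ 3 / 2 * ζ := by
    have e : (y 0 : ℝ) * θ - y 1 = (1 / 5 * θ * ℓ x - y 1) - θ * (1 / 5 * ℓ x - y 0) := by ring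
    rw [e]
    refine (abs_sub _ _).trans ?_
    rw [abs_mul, abs_of_pos θ_pos]
    nlinarith [abs_nonneg (1 / 5 * ℓ x - (y 0 : ℝ))]
  have hy0 : y 0 = 0 := by
    by_contra h0
    have h3 := bad (y 0) (y 1) h0
    have h4 : |(y 0 : ℝ)| ≤ 3 / 10 * N x + ζ := by
      have e : (y 0 : ℝ) = 1 / 5 * ℓ x - (1 / 5 * ℓ x - y 0) := by ring
      rw [e]
      refine (abs_sub _ _).trans ?_
      rw [abs_mul, abs_of_pos (show (0 : ℝ) < 1 / 5 by norm_num)]
      have := ℓ_abs x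
      linarith
    have h5 : |(y 0 : ℝ)| * |(y 0 : ℝ) * θ - y 1| ≤ (3 / 10 * N x + ζ) * (3 / 2 * ζ) := by
      apply mul_le_mul h4 hb (abs_nonneg _)
      positivity
    nlinarith
  have hy1 : y 1 = 0 := by
    rw [hy0] at hb
    simp only [Int.cast_zero, zero_mul, zero_sub, abs_neg] at hb
    have h3 : |(y 1 : ℝ)| < 1 := by linarith
    have h4 : |y 1| < 1 := by exact_mod_cast h3
    exact Int.abs_lt_one_iff.1 h4
  ext i
  fin_cases i
  · exact hy0
  · exact hy1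

/-- Dirichlet's theorem for the form `ℓ` -/
lemma dirichlet (n : ℕ) (hn : 1 ≤ n) : ∃ x : Fin 2 → ℤ, x ≠ 0 ∧ N x ≤ n ∧ |ℓ x| ≤ 1 / ((n : ℝ) + 1) := by
  obtain ⟨j, k, hk0, hkn, hjk⟩ := Real.exists_int_int_abs_mul_sub_le θ (show 0 < n by omega)
  have hn' : (1 : ℝ) ≤ n := by exact_mod_cast hn
  have h1 : 1 / ((n : ℝ) + 1) ≤ 1 / 2 := by
    apply one_div_le_one_div_of_le <;> linarith
  have hk0' : (1 : ℝ) ≤ k := by exact_mod_cast hk0
  have h2 := abs_le.1 (hjk.trans h1)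
  have hj0 : 0 ≤ j := by
    by_contra hneg
    have : j ≤ -1 := by omega
    have : (j : ℝ) ≤ -1 := by exact_mod_cast this
    nlinarith [θ_pos]
  have hjk' : j ≤ k := by
    have : (j : ℝ) < k + 1 := by nlinarith [θ_lt, θ_pos]
    have : j < k + 1 := by exact_mod_cast this
    omega
  refine ⟨![-j, k], ?_, ?_, ?_⟩
  · intro h
    have := congrFun h 1
    simp at this
    omega
  · simp only [N, Matrix.cons_val_zero, Matrix.cons_val_one]
    omega
  · have e : ℓ ![-j, k] = k * θ - j := by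
      simp [ℓ]
      ring
    rw [e]
    exact hjk

/-- the box around a vector `(x, 0)` with small `|x| |ℓ(x)|` contains no point with `y ≠ 0` -/
lemma box_y {x x' y' : Fin 2 → ℤ} (hx' : N x' ≤ N x) (hx : N x * |ℓ x| < 1) (hl : |ℓ x| < 1)
    (h : ‖Θ *ᵥ toR x' - toR y'‖ ≤ 1 / 5 * |ℓ x|) : y' = 0 := by
  have hc : (N x' : ℝ) ≤ N x := by exact_mod_cast hx'
  have h0 : 0 ≤ ‖Θ *ᵥ toR x' - toR y'‖ := norm_nonneg _
  apply y_zero (x := x')
  · calc (N x' : ℝ) * ‖Θ *ᵥ toR x' - toR y'‖ ≤ N x * (1 / 5 * |ℓ x|) := by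
          apply mul_le_mul hc h h0
          positivity
      _ < 1 / 5 := by linarith
  · linarith

/-- every best approximation vector has `y = 0` -/
lemma best_y {x y : Fin 2 → ℤ} (h : IsBest Θ x y) : y = 0 := by
  obtain ⟨hx, hbox⟩ := h
  have hN := N_pos hx
  obtain ⟨x', hx'0, hx'N, hx'l⟩ := dirichlet (N x) hN
  have hN' : (1 : ℝ) ≤ N x := by exact_mod_cast hN
  rcases le_or_gt (‖Θ *ᵥ toR x' - toR 0‖) (‖Θ *ᵥ toR x - toR y‖) with h1 | h1
  · have h2 : ‖toR x'‖ ≤ ‖toR x‖ := by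
      rw [norm_toR, norm_toR]
      exact_mod_cast hx'N
    rcases hbox x' 0 h2 h1 with ⟨h3, -⟩ | ⟨-, h3⟩ | ⟨-, h3⟩
    · exact absurd h3 hx'0
    · exact h3.symm
    · exact (neg_eq_zero.1 h3.symm)
  · rw [norm_zero] at h1
    have h3 : ‖Θ *ᵥ toR x - toR y‖ < 1 / 5 * (1 / ((N x : ℝ) + 1)) := by linarith
    have h4 : (N x : ℝ) * (1 / ((N x : ℝ) + 1)) < 1 := by
      rw [mul_one_div, div_lt_one (by positivity)]
      linarith
    have h5 : 1 / ((N x : ℝ) + 1) < 1 := by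
      rw [div_lt_one (by positivity)]
      linarith
    apply y_zero (x := x)
    · calc (N x : ℝ) * ‖Θ *ᵥ toR x - toR y‖ ≤ N x * (1 / 5 * (1 / ((N x : ℝ) + 1))) := by
            apply mul_le_mul_of_nonneg_left h3.le
            positivity
        _ < 1 / 5 := by linarith
    · linarith

lemma condG : CondG Θ := by
  intro x hx y hxy
  rw [Θ_mul] at hxy
  have h0 : 1 / 5 * ℓ x = y 0 := by simpa [toR] using congrFun hxy 0
  have h1 : 1 / 5 * θ * ℓ x = y 1 := by simpa [toR] using congrFun hxy 1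
  by_cases hy : y 0 = 0
  · rw [hy, Int.cast_zero] at h0
    exact ℓ_ne hx (by linarith)
  · have h2 := bad (y 0) (y 1) hy
    have h3 : (y 0 : ℝ) * θ - y 1 = 0 := by
      rw [← h0, ← h1]
      ring
    rw [h3, abs_zero, mul_zero] at h2
    norm_num at h2

lemma best_le {x : Fin 2 → ℤ} (hx : x ≠ 0) (n : ℕ) (hn : N x ≤ n)
    (hmin : ∀ x' : Fin 2 → ℤ, x' ≠ 0 → N x' ≤ n → |ℓ x| ≤ |ℓ x'|) : IsBest Θ x 0 := by
  have hN := N_pos hx
  have hn1 : 1 ≤ n := hN.trans hn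
  obtain ⟨w, hw0, hwN, hwl⟩ := dirichlet n hn1
  have h1 := (hmin w hw0 hwN).trans hwl
  have hn1' : (1 : ℝ) ≤ n := by exact_mod_cast hn1
  have hnx : (N x : ℝ) ≤ n := by exact_mod_cast hn
  have h2 : |ℓ x| < 1 := by
    refine lt_of_le_of_lt h1 ?_
    rw [div_lt_one (by positivity)]
    linarith
  have h3 : N x * |ℓ x| < 1 := by
    calc N x * |ℓ x| ≤ n * (1 / ((n : ℝ) + 1)) := by
          apply mul_le_mul hnx h1 (abs_nonneg _)
          positivity
      _ < 1 := by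
          rw [mul_one_div, div_lt_one (by positivity)]
          linarith
  refine ⟨hx, fun x' y' hx' hb => ?_⟩
  rw [norm_toR, norm_toR] at hx'
  have hx'' : N x' ≤ N x := by exact_mod_cast hx'
  rw [norm_zero] at hb
  have hy' := box_y hx'' h3 h2 hb
  subst hy'
  rw [norm_zero] at hb
  by_cases h0 : x' = 0
  · exact Or.inl ⟨h0, rfl⟩
  right
  have h4 := hmin x' h0 (hx''.trans hn)
  have h5 : |ℓ x'| = |ℓ x| := le_antisymm (by linarith) h4
  rcases ℓ_inj h5 with h | h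
  · exact Or.inl ⟨h, rfl⟩
  · exact Or.inr ⟨h, by simp⟩

/-- there are best approximation vectors of arbitrarily large size -/
lemma exists_best (K : ℕ) : ∃ x : Fin 2 → ℤ, IsBest Θ x 0 ∧ K ≤ N x := by
  -- minimise `|ℓ|` over the nonzero vectors of size at most `n`
  set n := 4 * K + 4 with hn
  have hfin : {x : Fin 2 → ℤ | x ≠ 0 ∧ N x ≤ n}.Finite := by
    apply Set.Finite.subset (Set.finite_Icc (fun _ => -(n : ℤ)) (fun _ => (n : ℤ)))
    rintro x ⟨-, hx⟩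
    unfold N at hx
    constructor
    · intro i
      fin_cases i
      · show -(n : ℤ) ≤ x 0
        omega
      · show -(n : ℤ) ≤ x 1
        omega
    · intro i
      fin_cases i
      · show x 0 ≤ (n : ℤ)
        omega
      · show x 1 ≤ (n : ℤ)
        omega
  obtain ⟨w, hw0, hwN, hwl⟩ := dirichlet n (by omega)
  obtain ⟨x, ⟨hx0, hxN⟩, hmin⟩ := Set.exists_min_image _ (fun x => |ℓ x|) hfin ⟨w, hw0, hwN⟩
  have hb := best_le hx0 n hxN (fun x' h1 h2 => hmin x' ⟨h1, h2⟩)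
  refine ⟨x, hb, ?_⟩
  have h1 : |ℓ x| ≤ 1 / ((n : ℝ) + 1) := (hmin w ⟨hw0, hwN⟩).trans hwl
  have h2 := ℓ_lower hx0
  have h3 : (N x : ℝ) * |ℓ x| ≤ N x * (1 / ((n : ℝ) + 1)) :=
    mul_le_mul_of_nonneg_left h1 (by positivity)
  have h4 : 3 / 10 * ((n : ℝ) + 1) ≤ N x := by
    have h5 := h2.trans h3
    rw [mul_one_div, le_div_iff₀ (by positivity)] at h5
    exact h5
  have h5 : (K : ℝ) ≤ N x := by
    rw [hn] at h4
    push_cast at h4
    have : (0 : ℝ) ≤ K := by positivity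
    linarith
  exact_mod_cast h5

lemma best_unique {x y x' y' : Fin 2 → ℤ} (h : IsBest Θ x y) (h' : IsBest Θ x' y')
    (hN : N x = N x') : (x' = x ∧ y' = y) ∨ (x' = -x ∧ y' = -y) := by
  have hn : ‖toR x‖ = ‖toR x'‖ := by rw [norm_toR, norm_toR, hN]
  rcases le_total (‖Θ *ᵥ toR x' - toR y'‖) (‖Θ *ᵥ toR x - toR y‖) with h1 | h1
  · rcases h.2 x' y' hn.ge h1 with h2 | h2
    · exact absurd h2.1 h'.1
    · exact h2
  · rcases h'.2 x y hn.le h1 with h2 | h2 | h2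
    · exact absurd h2.1 h.1
    · exact Or.inl ⟨h2.1.symm, h2.2.symm⟩
    · exact Or.inr ⟨by rw [h2.1, neg_neg], by rw [h2.2, neg_neg]⟩

lemma exists_seq : ∃ X Y : ℕ → Fin 2 → ℤ, IsBestSeq Θ X Y := by
  classical
  set P : ℕ → Prop := fun m => ∃ x : Fin 2 → ℤ, IsBest Θ x 0 ∧ N x = m with hP
  have hinf : {m | P m}.Infinite := by
    rw [Set.infinite_iff_exists_gt]
    intro a
    obtain ⟨x, hx, hK⟩ := exists_best (a + 1)
    exact ⟨N x, ⟨x, hx, rfl⟩, by omega⟩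
  have hmem : ∀ ν, P (Nat.nth P ν) := fun ν => Nat.nth_mem_of_infinite hinf ν
  choose X hX hXN using hmem
  refine ⟨X, fun _ => 0, hX, ?_, ?_⟩
  · intro a b hab
    show ‖toR (X a)‖ < ‖toR (X b)‖
    rw [norm_toR, norm_toR, hXN, hXN]
    exact_mod_cast Nat.nth_strictMono hinf hab
  · intro x y hxy
    have hy := best_y hxy
    subst hy
    obtain ⟨ν, hν⟩ : ∃ ν, Nat.nth P ν = N x := by
      have h1 : N x ∈ Set.range (Nat.nth P) := by
        rw [Nat.range_nth_of_infinite hinf]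
        exact ⟨x, hxy, rfl⟩
      exact h1
    have h2 : N (X ν) = N x := by rw [hXN, hν]
    rcases best_unique (hX ν) hxy h2 with h3 | h3
    · exact ⟨ν, Or.inl h3⟩
    · exact ⟨ν, Or.inr h3⟩

lemma span_two (X Y : ℕ → Fin 2 → ℤ) (h : IsBestSeq Θ X Y) (ν₀ : ℕ) : d X Y ν₀ = 2 := by
  obtain ⟨hb, hmono, -⟩ := h
  have hY : ∀ ν, Y ν = 0 := fun ν => best_y (hb ν)
  set T : Set (Fin 2 → ℝ) := {v | ∃ ν, ν₀ ≤ ν ∧ v = toR (X ν)} with hT
  have himg : {z : (Fin 2 → ℝ) × (Fin 2 → ℝ) | ∃ ν, ν₀ ≤ ν ∧ z = (toR (X ν), toR (Y ν))} =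
      (LinearMap.inl ℝ (Fin 2 → ℝ) (Fin 2 → ℝ)) '' T := by
    ext z
    constructor
    · rintro ⟨ν, hν, rfl⟩
      refine ⟨toR (X ν), ⟨ν, hν, rfl⟩, ?_⟩
      rw [hY ν, toR_zero]
      simp
    · rintro ⟨v, ⟨ν, hν, rfl⟩, rfl⟩
      refine ⟨ν, hν, ?_⟩
      rw [hY ν, toR_zero]
      simp
  unfold d
  rw [himg, Submodule.span_image]
  have hinj : Function.Injective (LinearMap.inl ℝ (Fin 2 → ℝ) (Fin 2 → ℝ)) := LinearMap.inl_injective
  rw [(Submodule.equivMapOfInjective _ hinj _).symm.finrank_eq]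
  -- the determinant of two consecutive vectors does not vanish
  set a := X ν₀ with ha
  set b := X (ν₀ + 1) with hb'
  have hab : N a < N b := by
    have := hmono (Nat.lt_succ_self ν₀)
    simp only [norm_toR] at this
    exact_mod_cast this
  have ha0 : a ≠ 0 := (hb ν₀).1
  have hb0 : b ≠ 0 := (hb (ν₀ + 1)).1
  have hl : |ℓ b| < |ℓ a| := by
    by_contra hle
    rw [not_lt] at hle
    have h1 := (hb (ν₀ + 1)).2 a 0
    rw [hY (ν₀ + 1), ← hb', norm_zero, norm_zero, norm_toR, norm_toR] at h1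
    rcases h1 (by exact_mod_cast hab.le) (by linarith) with h2 | h2 | h2
    · exact ha0 h2.1
    · rw [h2.1] at hab
      omega
    · have : N a = N b := by
        rw [h2.1]
        simp [N]
      omega
  have hdet : (a 0 : ℝ) * b 1 - a 1 * b 0 ≠ 0 := by
    intro hdet
    have e1 : (a 1 : ℝ) * ℓ b = b 1 * ℓ a := by
      unfold ℓ
      linear_combination (-1 : ℝ) * hdet
    have e0 : (a 0 : ℝ) * ℓ b = b 0 * ℓ a := by
      unfold ℓ
      linear_combination θ * hdet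
    have h3 : ∀ i, |(b i : ℝ)| * |ℓ a| ≤ N a * |ℓ b| := by
      intro i
      have h4 := abs_coord a i
      fin_cases i
      · show |(b 0 : ℝ)| * |ℓ a| ≤ N a * |ℓ b|
        rw [← abs_mul, ← e0, abs_mul]
        exact mul_le_mul_of_nonneg_right h4 (abs_nonneg _)
      · show |(b 1 : ℝ)| * |ℓ a| ≤ N a * |ℓ b|
        rw [← abs_mul, ← e1, abs_mul]
        exact mul_le_mul_of_nonneg_right h4 (abs_nonneg _)
    have hla : 0 < |ℓ a| := abs_pos.2 (ℓ_ne ha0)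
    have h5 : (N b : ℝ) * |ℓ a| ≤ N a * |ℓ b| := by
      rw [← le_div_iff₀ hla, ← norm_toR b, pi_norm_le_iff_of_nonneg (by positivity)]
      intro i
      rw [le_div_iff₀ hla]
      exact h3 i
    have h6 : (N a : ℝ) * |ℓ b| < N b * |ℓ a| := by
      have hab' : (N a : ℝ) < N b := by exact_mod_cast hab
      have : (0 : ℝ) ≤ N a := by positivity
      nlinarith [abs_nonneg (ℓ b)]
    linarith
  have htop : Submodule.span ℝ T = ⊤ := by
    have hli : LinearIndependent ℝ ![toR a, toR b] := by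
      rw [LinearIndependent.pair_iff]
      intro s t hst
      have h0 : s * a 0 + t * b 0 = 0 := by simpa [toR] using congrFun hst 0
      have h1 : s * a 1 + t * b 1 = 0 := by simpa [toR] using congrFun hst 1
      constructor
      · have : s * ((a 0 : ℝ) * b 1 - a 1 * b 0) = 0 := by
          linear_combination (b 1 : ℝ) * h0 - (b 0 : ℝ) * h1
        exact (mul_eq_zero.1 this).resolve_right hdet
      · have : t * ((a 0 : ℝ) * b 1 - a 1 * b 0) = 0 := by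
          linear_combination (a 0 : ℝ) * h1 - (a 1 : ℝ) * h0
        exact (mul_eq_zero.1 this).resolve_right hdet
    have hspan := hli.span_eq_top_of_card_eq_finrank' (by simp)
    rw [eq_top_iff, ← hspan]
    apply Submodule.span_mono
    rintro v ⟨i, rfl⟩
    fin_cases i
    · exact ⟨ν₀, le_refl _, rfl⟩
    · exact ⟨ν₀ + 1, by omega, rfl⟩
  rw [htop, finrank_top]
  simp

/-- **Theorem.** There is a real `2 × 2` matrix `Θ` satisfying (G) for which the tails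
`(z_ν)_{ν ≥ ν₀}` of the sequence of best approximation vectors in the sup-norm span a space of
dimension `2` (for all `ν₀`). -/
theorem result :
    ∃ Θ : Matrix (Fin 2) (Fin 2) ℝ, CondG Θ ∧ (∃ X Y : ℕ → Fin 2 → ℤ, IsBestSeq Θ X Y) ∧
      ∀ X Y : ℕ → Fin 2 → ℤ, IsBestSeq Θ X Y → ∀ ν₀ : ℕ, d X Y ν₀ = 2 :=
  ⟨Θ, condG, exists_seq, span_two⟩

end Pool.Agent.Results.MP_a0fa86_nt.SpanTwo
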